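import Mathlib

/-!
# Characters of order two and derivations of a free group
-/

set_option autoImplicit false

namespace Pool.Agent.V5helper38.CS

open FreeGroup (of)

variable {ι : Type}

/-- The affine permutation `t ↦ d + e t`. -/
def aff (e : ℤˣ) (d : ℤ) : Equiv.Perm ℤ where
  toFun := fun t => d + e * t
  invFun := fun t => e * (t - d)
  left_inv := fun t => by
    have : (e : ℤ) * e = 1 := by rw [← Units.val_mul, Int.units_mul_self, Units.val_one]
    show (e : ℤ) * (d + e * t - d) = t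
    linear_combination t * this
  right_inv := fun t => by
    have : (e : ℤ) * e = 1 := by rw [← Units.val_mul, Int.units_mul_self, Units.val_one]
    show d + (e : ℤ) * (e * (t - d)) = t
    linear_combination (t - d) * this

lemma uu (e : ℤˣ) : (e : ℤ) * e = 1 := by
  rw [← Units.val_mul, Int.units_mul_self, Units.val_one]

lemma aff_apply (e : ℤˣ) (d t : ℤ) : aff e d t = d + e * t := rfl

lemma aff_inv_apply (e : ℤˣ) (d t : ℤ) : (aff e d)⁻¹ t = e * (t - d) := rfl

/-- The character with the values `c i` at the generators. -/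
def X (c : ι → ℤˣ) : FreeGroup ι →* ℤˣ := FreeGroup.lift c

lemma X_of (c : ι → ℤˣ) (i : ι) : X c (of i) = c i := by
  unfold X; rw [FreeGroup.lift_apply_of]

/-- The affine action. -/
def P (c : ι → ℤˣ) (d : ι → ℤ) : FreeGroup ι →* Equiv.Perm ℤ :=
  FreeGroup.lift (fun i => aff (c i) (d i))

/-- The derivation with respect to the character `X c` with the values `d i` at the generators. -/
def D (c : ι → ℤˣ) (d : ι → ℤ) (x : FreeGroup ι) : ℤ := P c d x 0

lemma P_apply (c : ι → ℤˣ) (d : ι → ℤ) (x : FreeGroup ι) (t : ℤ) :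
    P c d x t = D c d x + X c x * t := by
  unfold D
  induction x using FreeGroup.induction_on generalizing t with
  | C1 => simp
  | of i =>
    unfold P X
    rw [FreeGroup.lift_apply_of, FreeGroup.lift_apply_of, aff_apply, aff_apply]
    ring
  | inv_of i _ =>
    unfold P X
    rw [map_inv, map_inv, FreeGroup.lift_apply_of, FreeGroup.lift_apply_of, aff_inv_apply,
      aff_inv_apply, Int.units_inv_eq_self]
    ring
  | mul x y hx hy =>
    rw [map_mul, map_mul, Equiv.Perm.mul_apply, Equiv.Perm.mul_apply, hx, hy t, hx (P c d y 0),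
      Units.val_mul]
    ring

lemma D_mul (c : ι → ℤˣ) (d : ι → ℤ) (x y : FreeGroup ι) :
    D c d (x * y) = D c d x + X c x * D c d y := by
  show P c d (x * y) 0 = _
  rw [map_mul, Equiv.Perm.mul_apply, P_apply]
  rfl

lemma D_one (c : ι → ℤˣ) (d : ι → ℤ) : D c d 1 = 0 := by
  show P c d 1 0 = 0
  rw [map_one]; rfl

lemma D_of (c : ι → ℤˣ) (d : ι → ℤ) (i : ι) : D c d (of i) = d i := by
  unfold D P
  rw [FreeGroup.lift_apply_of, aff_apply]
  ring

lemma D_inv (c : ι → ℤˣ) (d : ι → ℤ) (x : FreeGroup ι) :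
    D c d x⁻¹ = - (X c x * D c d x) := by
  have h := D_mul c d x⁻¹ x
  rw [inv_mul_cancel, D_one, map_inv, Int.units_inv_eq_self] at h
  linear_combination -h

lemma D_conj {c : ι → ℤˣ} (d : ι → ℤ) (x : FreeGroup ι) {y : FreeGroup ι} (hy : X c y = 1) :
    D c d (x * y * x⁻¹) = X c x * D c d y := by
  rw [D_mul, D_mul, D_inv, map_mul, hy, mul_one]
  linear_combination - D c d x * uu (X c x)

/-- Uniqueness. -/
lemma D_unique {c : ι → ℤˣ} {E : FreeGroup ι → ℤ}
    (h : ∀ x y, E (x * y) = E x + X c x * E y) (x : FreeGroup ι) :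
    E x = D c (fun i => E (of i)) x := by
  have h1 : E 1 = 0 := by
    have := h 1 1
    rw [mul_one, map_one, Units.val_one, one_mul] at this
    linarith
  induction x using FreeGroup.induction_on with
  | C1 => rw [h1, D_one]
  | of i => rw [D_of]
  | inv_of i _ =>
    have h2 := h (of i)⁻¹ (of i)
    rw [inv_mul_cancel, h1, map_inv, Int.units_inv_eq_self] at h2
    rw [D_inv, D_of]
    linear_combination -h2
  | mul x y hx hy => rw [h, D_mul, hx, hy]

lemma D_add (c : ι → ℤˣ) (d d' : ι → ℤ) (x : FreeGroup ι) :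
    D c (d + d') x = D c d x + D c d' x := by
  have h := D_unique (c := c) (E := fun x => D c d x + D c d' x) (fun x y => by
    rw [D_mul, D_mul]; ring) x
  rw [h]
  congr 1
  ext i
  rw [D_of, D_of]; rfl

lemma D_smul (c : ι → ℤˣ) (t : ℤ) (d : ι → ℤ) (x : FreeGroup ι) :
    D c (t • d) x = t * D c d x := by
  have h := D_unique (c := c) (E := fun x => t * D c d x) (fun x y => by
    rw [D_mul]; ring) x
  rw [h]
  congr 1
  ext i
  rw [D_of]; rfl

/-- `D c` as a linear map in the values. -/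
def DL (c : ι → ℤˣ) (x : FreeGroup ι) : (ι → ℤ) →ₗ[ℤ] ℤ where
  toFun := fun d => D c d x
  map_add' := fun d d' => D_add c d d' x
  map_smul' := fun t d => D_smul c t d x

lemma DL_apply (c : ι → ℤˣ) (x : FreeGroup ι) (d : ι → ℤ) : DL c x d = D c d x := rfl

lemma D_sum [Fintype ι] [DecidableEq ι] (c : ι → ℤˣ) (d : ι → ℤ) (x : FreeGroup ι) :
    D c d x = ∑ i, d i * D c (Pi.single i 1) x := by
  rw [← DL_apply, LinearMap.pi_apply_eq_sum_univ (DL c x) d]
  apply Finset.sum_congr rfl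
  intro i _
  rw [smul_eq_mul, DL_apply]
  congr 2
  ext j
  rw [Pi.single_apply]
  by_cases h : i = j
  · rw [if_pos h, if_pos h.symm]
  · rw [if_neg h, if_neg (Ne.symm h)]

/-- The inner derivations. -/
lemma D_inner (c : ι → ℤˣ) (x : FreeGroup ι) :
    D c (fun i => 1 - (c i : ℤ)) x = 1 - X c x := by
  have h := D_unique (c := c) (E := fun x => 1 - (X c x : ℤ)) (fun x y => by
    rw [map_mul, Units.val_mul]; ring) x
  rw [h]
  simp only [X_of]

/-- The transported character. -/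
def tw (c : ι → ℤˣ) (φ : MulAut (FreeGroup ι)) : ι → ℤˣ := fun i => X c (φ (of i))

/-- The transported values. -/
def tv (c : ι → ℤˣ) (φ : MulAut (FreeGroup ι)) (d : ι → ℤ) : ι → ℤ := fun i => D c d (φ (of i))

lemma X_tw (c : ι → ℤˣ) (φ : MulAut (FreeGroup ι)) (x : FreeGroup ι) :
    X (tw c φ) x = X c (φ x) := by
  have h : X (tw c φ) = (X c).comp φ.toMonoidHom := by
    ext i
    rw [X_of]
    rfl
  rw [h]; rfl

lemma D_tv (c : ι → ℤˣ) (φ : MulAut (FreeGroup ι)) (d : ι → ℤ) (x : FreeGroup ι) :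
    D (tw c φ) (tv c φ d) x = D c d (φ x) := by
  exact (D_unique (c := tw c φ) (E := fun x => D c d (φ x)) (fun x y => by
    rw [map_mul, D_mul, X_tw]) x).symm

/-- The automorphisms preserving all characters. -/
def S (ι : Type) : Subgroup (MulAut (FreeGroup ι)) where
  carrier := {φ | ∀ (c : ι → ℤˣ) (x : FreeGroup ι), X c (φ x) = X c x}
  mul_mem' := fun {a b} ha hb c x => by rw [MulAut.mul_apply, ha, hb]
  one_mem' := fun c x => rfl
  inv_mem' := fun {a} ha c x => by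
    have := ha c (a⁻¹ x)
    rw [MulAut.apply_inv_self] at this
    exact this.symm

lemma mem_S {φ : MulAut (FreeGroup ι)} :
    φ ∈ S ι ↔ ∀ (c : ι → ℤˣ) (x : FreeGroup ι), X c (φ x) = X c x := Iff.rfl

lemma S_tw {φ : MulAut (FreeGroup ι)} (h : φ ∈ S ι) (c : ι → ℤˣ) : tw c φ = c := by
  ext i
  show ((X c (φ (of i)) : ℤˣ) : ℤ) = _
  rw [h c, X_of]

lemma S_conj {φ : MulAut (FreeGroup ι)} (h : φ ∈ S ι) (θ : MulAut (FreeGroup ι)) :
    θ * φ * θ⁻¹ ∈ S ι := by
  intro c x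
  rw [MulAut.mul_apply, MulAut.mul_apply, ← X_tw, h, X_tw, MulAut.apply_inv_self]

instance : (S ι).Normal := ⟨fun _ h θ => S_conj h θ⟩

/-- The elements in the kernels of all characters. -/
def Gm (ι : Type) : Subgroup (FreeGroup ι) := ⨅ c : ι → ℤˣ, (X c).ker

lemma mem_Gm {y : FreeGroup ι} : y ∈ Gm ι ↔ ∀ c : ι → ℤˣ, X c y = 1 := by
  unfold Gm
  rw [Subgroup.mem_iInf]
  rfl

lemma Gm_map {y : FreeGroup ι} (h : y ∈ Gm ι) (φ : MulAut (FreeGroup ι)) : φ y ∈ Gm ι := by
  rw [mem_Gm] at *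
  intro c
  rw [← X_tw]
  exact h _

instance : (Gm ι).Characteristic := by
  rw [Subgroup.characteristic_iff_le_comap]
  intro φ x hx
  exact Gm_map hx φ

lemma mem_S_iff {φ : MulAut (FreeGroup ι)} : φ ∈ S ι ↔ ∀ x, φ x * x⁻¹ ∈ Gm ι := by
  constructor
  · intro h x
    rw [mem_Gm]
    intro c
    rw [map_mul, h c, map_inv, mul_inv_cancel]
  · intro h c x
    have := mem_Gm.1 (h x) c
    rw [map_mul, map_inv, mul_inv_eq_one] at this
    exact this

/-- `α` and `β` act in the same way on the restrictions of the derivations to `Gm`. -/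
def Eqv (c : ι → ℤˣ) (α β : MulAut (FreeGroup ι)) : Prop :=
  ∀ (d : ι → ℤ), ∀ y ∈ Gm ι, D c d (α y) = D c d (β y)

lemma Eqv.symm {c : ι → ℤˣ} {α β : MulAut (FreeGroup ι)} (h : Eqv c α β) : Eqv c β α :=
  fun d y hy => (h d y hy).symm

lemma Eqv.refl (c : ι → ℤˣ) (α : MulAut (FreeGroup ι)) : Eqv c α α := fun _ _ _ => rfl

lemma Eqv.trans {c : ι → ℤˣ} {α β γ : MulAut (FreeGroup ι)} (h : Eqv c α β) (h' : Eqv c β γ) :
    Eqv c α γ := fun d y hy => (h d y hy).trans (h' d y hy)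

lemma Eqv.mul {c : ι → ℤˣ} {α β α' β' : MulAut (FreeGroup ι)} (h : Eqv c α β)
    (hβ : β ∈ S ι) (h' : Eqv c α' β') : Eqv c (α * α') (β * β') := by
  intro d y hy
  rw [MulAut.mul_apply, MulAut.mul_apply, h d _ (Gm_map hy α'), ← D_tv c β d (α' y),
    ← D_tv c β d (β' y), S_tw hβ, h' _ y hy]

lemma Eqv.inv {c : ι → ℤˣ} {α β : MulAut (FreeGroup ι)} (hα : α ∈ S ι) (h : Eqv c α β)
    (hβ : β ∈ S ι) : Eqv c α⁻¹ β⁻¹ := by
  have h1 : Eqv c (α⁻¹ * α) (α⁻¹ * β) := (Eqv.refl c α⁻¹).mul (inv_mem hα) h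
  have h2 := h1.mul (mul_mem (inv_mem hα) hβ) (Eqv.refl c β⁻¹)
  have e1 : α⁻¹ * α * β⁻¹ = β⁻¹ := by group
  have e2 : α⁻¹ * β * β⁻¹ = α⁻¹ := by group
  rw [e1, e2] at h2
  exact h2.symm

/-- transport of the relation. -/
lemma Eqv.conj {c : ι → ℤˣ} {α β θ : MulAut (FreeGroup ι)} (h : Eqv (tw c θ) α β) :
    Eqv c (θ * α * θ⁻¹) (θ * β * θ⁻¹) := by
  intro d y hy
  rw [MulAut.mul_apply, MulAut.mul_apply, MulAut.mul_apply, MulAut.mul_apply, ← D_tv c θ d,
    ← D_tv c θ d]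
  exact h _ _ (Gm_map hy _)

lemma tw_mul (c : ι → ℤˣ) (φ ψ : MulAut (FreeGroup ι)) : tw c (φ * ψ) = tw (tw c φ) ψ := by
  ext i
  show ((X c ((φ * ψ) (of i)) : ℤˣ) : ℤ) = ((X (tw c φ) (ψ (of i)) : ℤˣ) : ℤ)
  rw [X_tw]; rfl

lemma tw_one (c : ι → ℤˣ) : tw c 1 = c := by
  ext i
  show ((X c (of i) : ℤˣ) : ℤ) = _
  rw [X_of]

end Pool.Agent.V5helper38.CS
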