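import Pool.Agent.V5helper38.CS.Pure
import Pool.Agent.Helper460_CSP.Sur
import Pool.Agent.Helper460_CSP.Bls

/-!
# The congruence property at one character
-/

set_option autoImplicit false
set_option linter.unusedSectionVars false

namespace Pool.Agent.V5helper38.CS

open FreeGroup (of)
open Matrix
open Pool.Agent.Helper460_CSP (mt mt_mul mt_one mt_inj El El_le Cgr mA xv sl_surj)

variable {ι κ : Type} [DecidableEq ι] [Fintype ι] [DecidableEq κ] [Fintype κ]

/-- The coordinates `e k` describe the derivations of the character `c` on its kernel. -/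
structure Frame (c : ι → ℤˣ) (e : κ → ι) : Prop where
  inj : Function.Injective e
  one : ∀ k, c (e k) = 1
  van : ∀ i, i ∉ Set.range e → ∀ y, X c y = 1 → D c (Pi.single i 1) y = 0

variable {c : ι → ℤˣ} {e : κ → ι}

lemma Frame.sum (F : Frame c e) (d : ι → ℤ) {y : FreeGroup ι} (hy : X c y = 1) :
    D c d y = ∑ k : κ, d (e k) * D c (Pi.single (e k) 1) y := by
  rw [D_sum c d y]
  have h1 : ∑ k : κ, d (e k) * D c (Pi.single (e k) 1) y =
      ∑ i ∈ Finset.univ.image e, d i * D c (Pi.single i 1) y := by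
    rw [Finset.sum_image (fun a _ b _ h => F.inj h)]
  rw [h1]
  symm
  apply Finset.sum_subset (Finset.subset_univ _)
  intro i _ hi
  rw [F.van i (fun ⟨k, hk⟩ => hi (Finset.mem_image.2 ⟨k, Finset.mem_univ _, hk⟩)) y hy, mul_zero]

/-- The matrix. -/
def Cm (c : ι → ℤˣ) (e : κ → ι) (φ : MulAut (FreeGroup ι)) : Matrix κ κ ℤ :=
  fun k j => D c (Pi.single (e k) 1) (φ (of (e j)))

lemma Frame.ker (F : Frame c e) {φ : MulAut (FreeGroup ι)} (h : tw c φ = c) (j : κ) :
    X c (φ (of (e j))) = 1 := by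
  rw [← X_tw, h, X_of, F.one]

lemma Frame.Cm_mul (F : Frame c e) {φ ψ : MulAut (FreeGroup ι)} (hφ : tw c φ = c)
    (hψ : tw c ψ = c) : Cm c e (φ * ψ) = Cm c e φ * Cm c e ψ := by
  ext k j
  show D c (Pi.single (e k) 1) (φ (ψ (of (e j)))) = _
  rw [← D_tv c φ, hφ, F.sum _ (F.ker hψ j), Matrix.mul_apply]
  rfl

lemma Cm_one (F : Frame c e) : Cm c e 1 = 1 := by
  ext k j
  show D c (Pi.single (e k) 1) (of (e j)) = _
  rw [D_of, Pi.single_apply, Matrix.one_apply]
  by_cases h : k = j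
  · rw [if_pos h, if_pos (by rw [h])]
  · rw [if_neg h, if_neg (fun h' => h (F.inj h').symm)]

lemma tw_inv {φ : MulAut (FreeGroup ι)} (h : tw c φ = c) : tw c φ⁻¹ = c := by
  have := tw_mul c φ φ⁻¹
  rw [mul_inv_cancel, tw_one, h] at this
  exact this.symm

lemma Frame.Cm_inv (F : Frame c e) {φ : MulAut (FreeGroup ι)} (hφ : tw c φ = c) :
    Cm c e φ * Cm c e φ⁻¹ = 1 := by
  rw [← F.Cm_mul hφ (tw_inv hφ), mul_inv_cancel, Cm_one F]

/-- The matrix determines the action. -/
lemma Frame.eqv (F : Frame c e) {α β : MulAut (FreeGroup ι)} (hα : α ∈ S ι) (hβ : β ∈ S ι)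
    (h : Cm c e α = Cm c e β) : Eqv c α β := by
  intro d y hy
  have hy' := mem_Gm.1 hy c
  have h1 : ∀ {γ : MulAut (FreeGroup ι)}, γ ∈ S ι → D c d (γ y) =
      ∑ k : κ, (∑ l : κ, d (e l) * Cm c e γ l k) * D c (Pi.single (e k) 1) y := by
    intro γ hγ
    rw [← D_tv c γ d, S_tw hγ, F.sum _ hy']
    apply Finset.sum_congr rfl
    intro k _
    congr 1
    show D c d (γ (of (e k))) = _
    rw [F.sum d (F.ker (S_tw hγ c) k)]
    rfl
  rw [h1 hα, h1 hβ, h]

/-- lifting an automorphism of the subgroup generated by the `x_{e k}`. -/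
noncomputable def exh (e : κ → ι) (β : FreeGroup κ →* FreeGroup κ) :
    FreeGroup ι →* FreeGroup ι :=
  FreeGroup.lift (fun i => by
    classical
    exact if h : ∃ k, e k = i then FreeGroup.map e (β (of h.choose)) else of i)

lemma exh_of (he : Function.Injective e) (β : FreeGroup κ →* FreeGroup κ) (k : κ) :
    exh e β (of (e k)) = FreeGroup.map e (β (of k)) := by
  unfold exh
  rw [FreeGroup.lift_apply_of]
  have h : ∃ k', e k' = e k := ⟨k, rfl⟩
  rw [dif_pos h, he h.choose_spec]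

lemma exh_ne {i : ι} (hi : ¬ ∃ k, e k = i) (β : FreeGroup κ →* FreeGroup κ) :
    exh e β (of i) = of i := by
  unfold exh
  rw [FreeGroup.lift_apply_of, dif_neg hi]

lemma exh_map (he : Function.Injective e) (β : FreeGroup κ →* FreeGroup κ) (y : FreeGroup κ) :
    exh e β (FreeGroup.map e y) = FreeGroup.map e (β y) := by
  have : (exh e β).comp (FreeGroup.map e) = (FreeGroup.map e).comp β := by
    ext k
    rw [MonoidHom.comp_apply, FreeGroup.map.of, exh_of he]
    rfl
  exact DFunLike.congr_fun this y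

lemma exh_comp (he : Function.Injective e) (β γ : FreeGroup κ →* FreeGroup κ)
    (h : β.comp γ = MonoidHom.id _) (x : FreeGroup ι) : exh e β (exh e γ x) = x := by
  have : (exh e β).comp (exh e γ) = MonoidHom.id _ := by
    ext i
    rw [MonoidHom.comp_apply, MonoidHom.id_apply]
    by_cases hi : ∃ k, e k = i
    · obtain ⟨k, rfl⟩ := hi
      rw [exh_of he, exh_map he]
      have := DFunLike.congr_fun h (of k)
      rw [MonoidHom.comp_apply, MonoidHom.id_apply] at this
      rw [this, FreeGroup.map.of]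
    · rw [exh_ne hi, exh_ne hi]
  exact DFunLike.congr_fun this x

/-- The extension. -/
noncomputable def exa (he : Function.Injective e) (β : MulAut (FreeGroup κ)) :
    MulAut (FreeGroup ι) where
  toFun := exh e β.toMonoidHom
  invFun := exh e (β⁻¹ : MulAut (FreeGroup κ)).toMonoidHom
  left_inv := exh_comp he _ _ (by
    ext k
    show β⁻¹ (β (of k)) = of k
    rw [MulAut.inv_apply_self])
  right_inv := exh_comp he _ _ (by
    ext k
    show β (β⁻¹ (of k)) = of k
    rw [MulAut.apply_inv_self])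
  map_mul' := fun x y => map_mul _ x y

lemma exa_of (he : Function.Injective e) (β : MulAut (FreeGroup κ)) (k : κ) :
    exa he β (of (e k)) = FreeGroup.map e (β (of k)) := exh_of he _ k

lemma exa_ne (he : Function.Injective e) (β : MulAut (FreeGroup κ)) {i : ι}
    (hi : ¬ ∃ k, e k = i) : exa he β (of i) = of i := exh_ne hi _

lemma X_map (F : Frame c e) (y : FreeGroup κ) : X c (FreeGroup.map e y) = 1 := by
  have : (X c).comp (FreeGroup.map e) = 1 := by
    ext k
    rw [MonoidHom.comp_apply, FreeGroup.map.of, X_of, F.one]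
    rfl
  exact DFunLike.congr_fun this y

lemma D_map (F : Frame c e) (k : κ) (y : FreeGroup κ) :
    D c (Pi.single (e k) 1) (FreeGroup.map e y) = xv y k := by
  induction y using FreeGroup.induction_on with
  | C1 => rw [map_one, D_one, Pool.Agent.Helper460_CSP.xv_one]; rfl
  | of j =>
    rw [FreeGroup.map.of, D_of, Pool.Agent.Helper460_CSP.xv_of, Pi.single_apply, Pi.single_apply]
    by_cases h : k = j
    · rw [if_pos (by rw [h]), if_pos h]
    · rw [if_neg (fun h' => h (F.inj h').symm), if_neg h]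
  | inv_of j h =>
    rw [map_inv, D_inv, X_map F, h, Pool.Agent.Helper460_CSP.xv_inv, Pi.neg_apply, Units.val_one,
      one_mul]
  | mul x y hx hy =>
    rw [map_mul, D_mul, X_map F, hx, hy, Pool.Agent.Helper460_CSP.xv_mul, Pi.add_apply,
      Units.val_one, one_mul]

lemma exa_tw (F : Frame c e) (β : MulAut (FreeGroup κ)) : tw c (exa F.inj β) = c := by
  funext i
  show X c (exa F.inj β (of i)) = c i
  by_cases hi : ∃ k, e k = i
  · obtain ⟨k, rfl⟩ := hi
    rw [exa_of, X_map F, F.one]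
  · rw [exa_ne F.inj β hi, X_of]

lemma exa_Cm (F : Frame c e) (β : MulAut (FreeGroup κ)) : Cm c e (exa F.inj β) = mA β := by
  ext k j
  show D c (Pi.single (e k) 1) (exa F.inj β (of (e j))) = xv (β (of j)) k
  rw [exa_of, D_map F]

variable (V : Subgroup (MulAut (FreeGroup ι)))

/-- The matrices of the pure elements of `V`. -/
def El' (F : Frame c e) : Subgroup (SpecialLinearGroup κ ℤ) where
  carrier := {A | ∃ α ∈ V, α ∈ S ι ∧ (∀ c', c' ≠ c → Eqv c' α 1) ∧ Cm c e α = mt A}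
  mul_mem' := by
    rintro A B ⟨α, h1, h2, h3, h4⟩ ⟨β, k1, k2, k3, k4⟩
    refine ⟨α * β, mul_mem h1 k1, mul_mem h2 k2, fun c' hc => ?_, ?_⟩
    · have := (h3 c' hc).mul (one_mem _) (k3 c' hc)
      rwa [mul_one] at this
    · rw [F.Cm_mul (S_tw h2 c) (S_tw k2 c), h4, k4, mt_mul]
  one_mem' := ⟨1, one_mem _, one_mem _, fun c' _ => Eqv.refl c' 1, by rw [Cm_one F, mt_one]⟩
  inv_mem' := by
    rintro A ⟨α, h1, h2, h3, h4⟩
    refine ⟨α⁻¹, inv_mem h1, inv_mem h2, fun c' hc => ?_, ?_⟩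
    · have := (h3 c' hc).inv h2 (one_mem _)
      rwa [inv_one] at this
    · have h5 := F.Cm_inv (S_tw h2 c)
      calc Cm c e α⁻¹ = (mt A⁻¹ * mt A) * Cm c e α⁻¹ := by
            rw [← mt_mul, inv_mul_cancel, mt_one, Matrix.one_mul]
        _ = mt A⁻¹ := by rw [← h4, Matrix.mul_assoc, h5, Matrix.mul_one]

lemma mem_El' (F : Frame c e) {A : SpecialLinearGroup κ ℤ} : A ∈ El' V F ↔
    ∃ α ∈ V, α ∈ S ι ∧ (∀ c', c' ≠ c → Eqv c' α 1) ∧ Cm c e α = mt A := Iff.rfl

lemma pure_conj {θ α : MulAut (FreeGroup ι)} (hθ : tw c θ = c)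
    (h : ∀ c', c' ≠ c → Eqv c' α 1) (c' : ι → ℤˣ) (hc : c' ≠ c) :
    Eqv c' (θ * α * θ⁻¹) 1 := by
  have h1 : tw c' θ ≠ c := by
    intro h2
    apply hc
    have h3 := tw_mul c' θ θ⁻¹
    rw [mul_inv_cancel, tw_one, h2, tw_inv hθ] at h3
    exact h3
  have h4 := (h _ h1).conj
  rw [mul_one, mul_inv_cancel] at h4
  exact h4

lemma El'_normal [hV : V.Normal] (F : Frame c e) : (El' V F).Normal := by
  refine ⟨?_⟩
  rintro A ⟨α, h1, h2, h3, h4⟩ B
  obtain ⟨β, hβ⟩ := sl_surj B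
  have hθ := exa_tw F β
  refine ⟨exa F.inj β * α * (exa F.inj β)⁻¹, hV.conj_mem _ h1 _, S_conj h2 _,
    pure_conj hθ h3, ?_⟩
  have h5 := F.Cm_inv hθ
  have h6 : Cm c e (exa F.inj β)⁻¹ = mt B⁻¹ := by
    calc Cm c e (exa F.inj β)⁻¹ = (mt B⁻¹ * mt B) * Cm c e (exa F.inj β)⁻¹ := by
          rw [← mt_mul, inv_mul_cancel, mt_one, Matrix.one_mul]
      _ = mt B⁻¹ := by rw [← hβ, ← exa_Cm F β, Matrix.mul_assoc, h5, Matrix.mul_one]
  rw [F.Cm_mul _ (tw_inv hθ), F.Cm_mul hθ (S_tw h2 c), exa_Cm F β, hβ, h4, h6, mt_mul, mt_mul]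
  rw [tw_mul, hθ, S_tw h2]

/-- Elementary matrices in `El'`. -/
lemma tv_mem (F : Frame c e) (h3 : 3 ≤ Fintype.card κ) {m : ℕ}
    (hm : ∀ φ : MulAut (FreeGroup ι), φ ^ m ∈ V) (k j : κ) (hkj : k ≠ j) :
    Pool.Agent.Helper460_CSP.tv k j hkj (m * ((2 : ℤ) ^ (Fintype.card ι)) ^ 2) ∈ El' V F := by
  obtain ⟨l, hl⟩ : ∃ l, l ∉ ({k, j} : Finset κ) := by
    by_contra hcon
    push Not at hcon
    have h1 : (Finset.univ : Finset κ) ⊆ {k, j} := fun x _ => hcon x
    have h2 := Finset.card_le_card h1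
    have h4 := Finset.card_le_two (a := k) (b := j)
    rw [Finset.card_univ] at h2
    omega
  rw [Finset.mem_insert, Finset.mem_singleton, not_or] at hl
  obtain ⟨hlk, hlj⟩ := hl
  have a1 : e l ≠ e j := fun h => hlj (F.inj h)
  have a2 : e k ≠ e l := fun h => hlk (F.inj h).symm
  have a3 : e k ≠ e j := fun h => hkj (F.inj h)
  obtain ⟨N, hN⟩ : ∃ N : ℤ, N = ((2 : ℤ) ^ (Fintype.card ι)) ^ 2 := ⟨_, rfl⟩
  rw [← hN]
  have hmat : Cm c e (pe c a1 a2) = Matrix.transvection k j (-N) := by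
    ext r s
    have h5 : Cm c e (pe c a1 a2) r s = tv c (pe c a1 a2) (Pi.single (e r) 1) (e s) := rfl
    rw [h5, tv_pe c a1 a2 a3 (F.one j) (F.one l) (F.one k), ← hN]
    unfold Matrix.transvection
    rw [Matrix.add_apply, Matrix.one_apply, Matrix.single_apply, Pi.sub_apply, Pi.single_apply,
      Pi.single_apply, Pi.single_apply]
    have b1 : (e s = e r) = (r = s) := by
      apply propext
      exact ⟨fun h => (F.inj h).symm, fun h => by rw [h]⟩
    have b2 : (e s = e j) = (j = s) := by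
      apply propext
      exact ⟨fun h => (F.inj h).symm, fun h => by rw [h]⟩
    have b3 : (e k = e r) = (k = r) := by
      apply propext
      exact ⟨fun h => F.inj h, fun h => by rw [h]⟩
    simp only [b1, b2, b3]
    by_cases c1 : j = s <;> by_cases c2 : k = r <;> simp [c1, c2, sub_eq_add_neg]
  have hpow : ∀ t : ℕ, Cm c e (pe c a1 a2 ^ t) = Matrix.transvection k j (-(t * N)) := by
    intro t
    induction t with
    | zero => rw [pow_zero, Cm_one F]; simp
    | succ t ih =>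
      rw [pow_succ, F.Cm_mul (S_tw (pow_mem (pe_S c a1 a2) t) c) (S_tw (pe_S c a1 a2) c), ih, hmat,
        Matrix.transvection_mul_transvection_same _ _ hkj]
      congr 1
      push_cast
      ring
  have hinv : (Pool.Agent.Helper460_CSP.tv k j hkj (-(m * N)))⁻¹ ∈ El' V F := by
    apply inv_mem
    refine ⟨pe c a1 a2 ^ m, hm _, pow_mem (pe_S c a1 a2) m, fun c' hc => ?_, hpow m⟩
    have h6 : ∀ t : ℕ, Eqv c' (pe c a1 a2 ^ t) 1 := by
      intro t
      induction t with
      | zero => rw [pow_zero]; exact Eqv.refl _ _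
      | succ t ih =>
        rw [pow_succ]
        have := ih.mul (one_mem _) (pe_pure c c' hc a1 a2)
        rwa [mul_one] at this
    exact h6 m
  have h7 : (Pool.Agent.Helper460_CSP.tv k j hkj (-(m * N)))⁻¹ =
      Pool.Agent.Helper460_CSP.tv k j hkj (m * N) := by
    rw [inv_eq_iff_mul_eq_one, ← Pool.Agent.Helper460_CSP.tv_add, neg_add_cancel,
      Pool.Agent.Helper460_CSP.tv_zero]
  rwa [h7] at hinv

/-- **The congruence property at one character.** -/
theorem local_csp [V.Normal] (F : Frame c e) (h3 : 3 ≤ Fintype.card κ) {m : ℕ}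
    (hm : ∀ φ : MulAut (FreeGroup ι), φ ^ m ∈ V) (hm0 : m ≠ 0)
    (hbls : ∀ M : ℤ, M ≠ 0 → ∀ A : SpecialLinearGroup κ ℤ, Cgr M A → A ∈ El κ M)
    {φ : MulAut (FreeGroup ι)} (hφ : φ ∈ S ι)
    (hc : ∀ k j, (4 * (m * ((2 : ℤ) ^ (Fintype.card ι)) ^ 2)) ∣
      Cm c e φ k j - (1 : Matrix κ κ ℤ) k j) :
    ∃ α ∈ V, α ∈ S ι ∧ (∀ c', c' ≠ c → Eqv c' α 1) ∧ Eqv c α φ := by
  obtain ⟨M, hM⟩ : ∃ M : ℤ, M = m * ((2 : ℤ) ^ (Fintype.card ι)) ^ 2 := ⟨_, rfl⟩
  have hM0 : M ≠ 0 := by
    rw [hM]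
    positivity
  rw [← hM] at hc
  have hdet1 : (Cm c e φ).det * (Cm c e φ⁻¹).det = 1 := by
    rw [← Matrix.det_mul, F.Cm_inv (S_tw hφ c), Matrix.det_one]
  have hunit := Int.isUnit_iff.1 (IsUnit.of_mul_eq_one _ hdet1)
  have hdet : (Cm c e φ).det = 1 := by
    rcases hunit with h | h
    · exact h
    · exfalso
      -- modulo four
      have h4 : ((Int.castRingHom (ZMod 4)).mapMatrix (Cm c e φ)) = 1 := by
        ext k j
        have h5 := hc k j
        have h6 : ((Cm c e φ k j - (1 : Matrix κ κ ℤ) k j : ℤ) : ZMod 4) = 0 := by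
          rw [ZMod.intCast_zmod_eq_zero_iff_dvd]
          exact dvd_trans (Dvd.intro _ rfl) h5
        rw [Int.cast_sub, sub_eq_zero] at h6
        show ((Cm c e φ k j : ℤ) : ZMod 4) = _
        rw [h6, Matrix.one_apply, Matrix.one_apply]
        split_ifs <;> simp
      have h7 := RingHom.map_det (Int.castRingHom (ZMod 4)) (Cm c e φ)
      rw [h4, Matrix.det_one, h] at h7
      revert h7
      decide
  let A : SpecialLinearGroup κ ℤ := ⟨Cm c e φ, hdet⟩
  have hA : Cgr M A := fun k j => dvd_trans (Dvd.intro_left _ rfl) (hc k j)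
  have hN : (El' V F).Normal := El'_normal V F
  have hle : El κ M ≤ El' V F := by
    apply El_le
    intro k j hkj
    rw [hM]
    exact tv_mem V F h3 hm k j hkj
  obtain ⟨α, h1, h2, h5, h6⟩ := hle (hbls M hM0 A hA)
  exact ⟨α, h1, h2, h5, F.eqv h2 hφ h6⟩

end Pool.Agent.V5helper38.CS
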