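import Pool.Agent.V5helper38.CS.Der

/-!
# The squares, and the derivations detect the abelianization
-/

set_option autoImplicit false

namespace Pool.Agent.V5helper38.CS

open FreeGroup (of)
open scoped commutatorElement

variable {ι : Type}

section orth

variable [DecidableEq ι]

lemma X_mul_left (c c' : ι → ℤˣ) (x : FreeGroup ι) : X (c * c') x = X c x * X c' x := by
  have h : X (c * c') = X c * X c' := by
    ext i
    rw [MonoidHom.mul_apply, X_of, X_of, X_of]; rfl
  rw [h]; rfl

variable (ι) in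
/-- The homomorphism to the elementary abelian group of order `2 ^ n`. -/
def Q : FreeGroup ι →* (ι → ℤˣ) := FreeGroup.lift (fun i => Pi.mulSingle i (-1))

lemma Q_of (i : ι) : Q ι (of i) = Pi.mulSingle i (-1) := by
  unfold Q; rw [FreeGroup.lift_apply_of]

lemma Q_apply (x : FreeGroup ι) (i : ι) : Q ι x i = X (Pi.mulSingle i (-1)) x := by
  have h : (Pi.evalMonoidHom (fun _ : ι => ℤˣ) i).comp (Q ι) = X (Pi.mulSingle i (-1)) := by
    ext j
    rw [MonoidHom.comp_apply, Q_of, X_of]
    show ((Pi.mulSingle j (-1) : ι → ℤˣ) i : ℤ) = _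
    rw [Pi.mulSingle_apply, Pi.mulSingle_apply]
    by_cases h : i = j
    · rw [if_pos h, if_pos h.symm]
    · rw [if_neg h, if_neg (Ne.symm h)]
  exact DFunLike.congr_fun h x

/-- the homomorphism from the units of `ℤ` to a group with the given value at `-1`. -/
def uh {G : Type} [Group G] (g : G) (h : g * g = 1) : ℤˣ →* G where
  toFun := fun e => if e = 1 then 1 else g
  map_one' := by simp
  map_mul' := fun a b => by
    rcases Int.units_eq_one_or a with rfl | rfl <;> rcases Int.units_eq_one_or b with rfl | rfl <;>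
      simp [h]

lemma uh_neg {G : Type} [Group G] (g : G) (h : g * g = 1) : uh g h (-1) = g := by
  show (if (-1 : ℤˣ) = 1 then 1 else g) = g
  rw [if_neg (by decide)]

variable [Fintype ι]

lemma mem_Gm_iff_Q {y : FreeGroup ι} : y ∈ Gm ι ↔ Q ι y = 1 := by
  rw [mem_Gm]
  constructor
  · intro h
    ext i
    rw [Q_apply, h]; rfl
  · intro h c
    -- `X c` factors through `Q`
    have h1 : X c = (∏ i : ι, (uh (c i) (Int.units_mul_self _)).comp
        (Pi.evalMonoidHom (fun _ : ι => ℤˣ) i)).comp (Q ι) := by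
      ext j
      rw [X_of, MonoidHom.comp_apply, Q_of, MonoidHom.finsetProd_apply,
        Finset.prod_eq_single j]
      · rw [MonoidHom.comp_apply, Pi.evalMonoidHom_apply, Pi.mulSingle_eq_same, uh_neg]
      · intro i _ hi
        rw [MonoidHom.comp_apply, Pi.evalMonoidHom_apply, Pi.mulSingle_eq_of_ne hi, map_one]
      · intro h; exact absurd (Finset.mem_univ _) h
    rw [h1, MonoidHom.comp_apply, h, map_one]

lemma ker_Q : (Q ι).ker = Gm ι := by
  ext y
  rw [MonoidHom.mem_ker, mem_Gm_iff_Q]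

instance : Finite (ι → ℤˣ) := inferInstance

instance : (Gm ι).FiniteIndex := by
  rw [← ker_Q]
  infer_instance

lemma Q_surj : Function.Surjective (Q ι) := by
  rw [← MonoidHom.range_eq_top, eq_top_iff]
  intro b _
  have hb : b = ∏ i : ι, Pi.mulSingle i (b i) := by
    rw [Finset.univ_prod_mulSingle]
  rw [hb]
  refine Subgroup.prod_mem _ (fun i _ => ?_)
  rcases Int.units_eq_one_or (b i) with h | h
  · rw [h, Pi.mulSingle_one]; exact one_mem _
  · rw [h]; exact ⟨of i, Q_of i⟩

lemma X_sum {x : FreeGroup ι} (h : Q ι x ≠ 1) : ∑ c : ι → ℤˣ, (X c x : ℤ) = 0 := by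
  obtain ⟨i, hi⟩ : ∃ i, Q ι x i ≠ 1 := by
    by_contra hcon
    push Not at hcon
    exact h (funext hcon)
  have hi' : X (Pi.mulSingle i (-1)) x = -1 := by
    rw [← Q_apply]
    exact (Int.units_eq_one_or _).resolve_left hi
  have h1 : ∑ c : ι → ℤˣ, (X c x : ℤ) = ∑ c : ι → ℤˣ, (X (c * Pi.mulSingle i (-1)) x : ℤ) := by
    refine (Fintype.sum_equiv (Equiv.mulRight (Pi.mulSingle i (-1) : ι → ℤˣ)) _ _ ?_).symm
    intro c; rfl
  have h2 : ∑ c : ι → ℤˣ, (X (c * Pi.mulSingle i (-1)) x : ℤ) = - ∑ c : ι → ℤˣ, (X c x : ℤ) := by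
    rw [← Finset.sum_neg_distrib]
    apply Finset.sum_congr rfl
    intro c _
    rw [X_mul_left, hi', mul_neg, mul_one, Units.val_neg]
  linarith

lemma X_sum_one {x : FreeGroup ι} (h : Q ι x = 1) :
    ∑ c : ι → ℤˣ, (X c x : ℤ) = 2 ^ (Fintype.card ι) := by
  have : ∀ c : ι → ℤˣ, (X c x : ℤ) = 1 := fun c => by
    rw [mem_Gm.1 (mem_Gm_iff_Q.2 h) c]; rfl
  rw [Finset.sum_congr rfl (fun c _ => this c)]
  simp

/-- A transversal. -/
noncomputable def sec (a : ι → ℤˣ) : FreeGroup ι :=
  if a = 1 then 1 else (Q_surj a).choose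

lemma Q_sec (a : ι → ℤˣ) : Q ι (sec a) = a := by
  unfold sec
  split_ifs with h
  · rw [map_one, h]
  · exact (Q_surj a).choose_spec

lemma sec_one : sec (1 : ι → ℤˣ) = 1 := if_pos rfl

lemma sch_mem (a : ι → ℤˣ) (x : FreeGroup ι) : sec a * x * (sec (a * Q ι x))⁻¹ ∈ Gm ι := by
  rw [mem_Gm_iff_Q, map_mul, map_mul, map_inv, Q_sec, Q_sec, mul_inv_cancel]

lemma X_sec_eq {c : ι → ℤˣ} {x y : FreeGroup ι} (h : Q ι x = Q ι y) : X c x = X c y := by
  have h1 : x * y⁻¹ ∈ Gm ι := by
    rw [mem_Gm_iff_Q, map_mul, map_inv, h, mul_inv_cancel]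
  have := mem_Gm.1 h1 c
  rw [map_mul, map_inv, mul_inv_eq_one] at this
  exact this

variable (h : Gm ι →* Multiplicative ℤ)

/-- The Schreier function. -/
noncomputable def sch (x : FreeGroup ι) (a : ι → ℤˣ) : ℤ :=
  Multiplicative.toAdd (h ⟨sec a * x * (sec (a * Q ι x))⁻¹, sch_mem a x⟩)

lemma sch_mul (x y : FreeGroup ι) (a : ι → ℤˣ) :
    sch h (x * y) a = sch h x a + sch h y (a * Q ι x) := by
  unfold sch
  rw [← toAdd_mul, ← map_mul]
  congr 2
  apply Subtype.ext
  show sec a * (x * y) * (sec (a * Q ι (x * y)))⁻¹ =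
    sec a * x * (sec (a * Q ι x))⁻¹ * (sec (a * Q ι x) * y * (sec (a * Q ι x * Q ι y))⁻¹)
  rw [map_mul, mul_assoc a]
  group

lemma sch_one_apply {z : FreeGroup ι} (hz : z ∈ Gm ι) :
    sch h z 1 = Multiplicative.toAdd (h ⟨z, hz⟩) := by
  unfold sch
  congr 2
  apply Subtype.ext
  show sec 1 * z * (sec (1 * Q ι z))⁻¹ = z
  rw [mem_Gm_iff_Q.1 hz, mul_one, sec_one]
  group

lemma sch_D (c : ι → ℤˣ) (x : FreeGroup ι) :
    ∑ a : ι → ℤˣ, (X c (sec a) : ℤ) * sch h x a =
      D c (fun i => ∑ a : ι → ℤˣ, (X c (sec a) : ℤ) * sch h (of i) a) x := by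
  apply D_unique (c := c) (E := fun x => ∑ a : ι → ℤˣ, (X c (sec a) : ℤ) * sch h x a)
  intro x y
  have h1 : ∑ a : ι → ℤˣ, (X c (sec a) : ℤ) * sch h y (a * Q ι x) =
      X c x * ∑ a : ι → ℤˣ, (X c (sec a) : ℤ) * sch h y a := by
    rw [Finset.mul_sum]
    refine Fintype.sum_equiv (Equiv.mulRight (Q ι x)) _ _ ?_
    intro a
    show (X c (sec a) : ℤ) * sch h y (a * Q ι x) =
      X c x * (X c (sec (a * Q ι x)) * sch h y (a * Q ι x))
    have h2 : X c (sec (a * Q ι x)) = X c (sec a) * X c x := by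
      rw [← map_mul]
      apply X_sec_eq
      rw [Q_sec, map_mul, Q_sec]
    rw [h2, Units.val_mul]
    linear_combination - (X c (sec a) : ℤ) * sch h y (a * Q ι x) * uu (X c x)
  rw [← h1, ← Finset.sum_add_distrib]
  apply Finset.sum_congr rfl
  intro a _
  rw [sch_mul]; ring

/-- An element of `Gm` on which all derivations vanish is killed by all homomorphisms to `ℤ`. -/
lemma hom_zero {z : FreeGroup ι} (hz : z ∈ Gm ι) (h0 : ∀ c d, D c d z = 0) : h ⟨z, hz⟩ = 1 := by
  have h1 : ∑ c : ι → ℤˣ, ∑ a : ι → ℤˣ, (X c (sec a) : ℤ) * sch h z a = 0 :=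
    Finset.sum_eq_zero (fun c _ => by rw [sch_D, h0])
  rw [Finset.sum_comm] at h1
  simp only [← Finset.sum_mul] at h1
  rw [Finset.sum_eq_single (1 : ι → ℤˣ)] at h1
  · rw [X_sum_one (by rw [Q_sec]), sch_one_apply h hz] at h1
    have h2 : Multiplicative.toAdd (h ⟨z, hz⟩) = 0 := by
      rcases mul_eq_zero.1 h1 with h3 | h3
      · exact absurd h3 (by positivity)
      · exact h3
    exact Multiplicative.toAdd.injective h2
  · intro a _ ha
    rw [X_sum (by rw [Q_sec]; exact ha), zero_mul]
  · intro h5; exact absurd (Finset.mem_univ _) h5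

end orth

/-- In a free group an element which is killed by all homomorphisms to `ℤ` is in the commutator
subgroup. -/
lemma free_comm {G : Type} [Group G] [IsFreeGroup G] {z : G}
    (hz : ∀ h : G →* Multiplicative ℤ, h z = 1) : z ∈ commutator G := by
  let e : G ≃* FreeGroup (IsFreeGroup.Generators G) := IsFreeGroup.toFreeGroup G
  by_contra hcon
  have h1 : Abelianization.of (e z) ≠ 1 := by
    intro h2
    apply hcon
    rw [← Abelianization.ker_of]
    rw [MonoidHom.mem_ker]
    let f : FreeGroup (IsFreeGroup.Generators G) →* Abelianization G :=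
      Abelianization.of.comp e.symm.toMonoidHom
    have h3 : Abelianization.lift f (Abelianization.of (e z)) = f (e z) :=
      Abelianization.lift_apply_of f (e z)
    rw [h2, map_one] at h3
    have h4 : f (e z) = Abelianization.of z := by
      show Abelianization.of (e.symm (e z)) = _
      rw [MulEquiv.symm_apply_apply]
    rw [← h4, ← h3]
  let w : FreeAbelianGroup (IsFreeGroup.Generators G) := Additive.ofMul (Abelianization.of (e z))
  have hw : w ≠ 0 := fun h => h1 (Additive.ofMul.injective h)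
  have hw2 : FreeAbelianGroup.toFinsupp w ≠ 0 := by
    intro h
    apply hw
    have := (FreeAbelianGroup.equivFinsupp (IsFreeGroup.Generators G)).injective
      (a₁ := w) (a₂ := 0)
    apply this
    rw [map_zero]
    exact h
  obtain ⟨g, hg⟩ := Finsupp.ne_iff.1 hw2
  let k : FreeGroup (IsFreeGroup.Generators G) →* Multiplicative ℤ :=
    { toFun := fun x => Multiplicative.ofAdd
        (FreeAbelianGroup.toFinsupp
          (Additive.ofMul (Abelianization.of x) : FreeAbelianGroup (IsFreeGroup.Generators G)) g)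
      map_one' := by
        rw [map_one, ofMul_one]
        have : FreeAbelianGroup.toFinsupp
          (0 : FreeAbelianGroup (IsFreeGroup.Generators G)) = 0 := map_zero _
        show Multiplicative.ofAdd (FreeAbelianGroup.toFinsupp
          (0 : FreeAbelianGroup (IsFreeGroup.Generators G)) g) = 1
        rw [this]; rfl
      map_mul' := fun x y => by
        rw [map_mul, ofMul_mul]
        have : FreeAbelianGroup.toFinsupp
          ((Additive.ofMul (Abelianization.of x) : FreeAbelianGroup (IsFreeGroup.Generators G)) +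
          (Additive.ofMul (Abelianization.of y) : FreeAbelianGroup (IsFreeGroup.Generators G))) =
          _ := map_add _ _ _
        show Multiplicative.ofAdd (FreeAbelianGroup.toFinsupp
          ((Additive.ofMul (Abelianization.of x) : FreeAbelianGroup (IsFreeGroup.Generators G)) +
          (Additive.ofMul (Abelianization.of y) : FreeAbelianGroup (IsFreeGroup.Generators G))) g)
            = _
        rw [this, Finsupp.add_apply, ofAdd_add] }
  have h5 := hz (k.comp e.toMonoidHom)
  apply hg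
  exact Multiplicative.ofAdd.injective h5

section

variable [DecidableEq ι] [Fintype ι]

/-- An element of `Gm` on which all derivations vanish is in the commutator subgroup of `Gm`. -/
theorem mem_comm {z : FreeGroup ι} (hz : z ∈ Gm ι) (h0 : ∀ c d, D c d z = 0) :
    z ∈ ⁅Gm ι, Gm ι⁆ := by
  have h1 : (⟨z, hz⟩ : Gm ι) ∈ commutator (Gm ι) := free_comm (fun h => hom_zero h hz h0)
  have h2 : z ∈ (commutator (Gm ι)).map (Gm ι).subtype := ⟨_, h1, rfl⟩
  rw [commutator_def, Subgroup.map_commutator, ← MonoidHom.range_eq_map,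
    Subgroup.range_subtype] at h2
  exact h2

/-- `Gm` is generated by the squares. -/
theorem Gm_eq_sq : Gm ι = Subgroup.closure {x : FreeGroup ι | ∃ y, x = y * y} := by
  apply le_antisymm
  · intro z hz
    have hN : (Subgroup.closure {x : FreeGroup ι | ∃ y, x = y * y}).Normal := by
      refine ⟨fun x hx g => ?_⟩
      induction hx using Subgroup.closure_induction with
      | mem x hx =>
        obtain ⟨y, rfl⟩ := hx
        exact Subgroup.subset_closure ⟨g * y * g⁻¹, by group⟩
      | one => rw [mul_one, mul_inv_cancel]; exact one_mem _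
      | mul x y _ _ hx hy =>
        have : g * (x * y) * g⁻¹ = (g * x * g⁻¹) * (g * y * g⁻¹) := by group
        rw [this]; exact mul_mem hx hy
      | inv x _ hx =>
        have : g * x⁻¹ * g⁻¹ = (g * x * g⁻¹)⁻¹ := by group
        rw [this]; exact inv_mem hx
    let Sq : Subgroup (FreeGroup ι) := Subgroup.closure {x : FreeGroup ι | ∃ y, x = y * y}
    have hsq : ∀ a : FreeGroup ι ⧸ Sq, a * a = 1 := by
      intro a
      induction a using QuotientGroup.induction_on with
      | H y =>
        rw [← QuotientGroup.mk_mul, QuotientGroup.eq_one_iff]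
        exact Subgroup.subset_closure ⟨y, rfl⟩
    have hcomm : ∀ a b : FreeGroup ι ⧸ Sq, a * b = b * a := by
      intro a b
      have h1 := hsq a
      have h2 := hsq b
      have h3 := hsq (a * b)
      have h4 : a⁻¹ = a := by rw [inv_eq_iff_mul_eq_one, h1]
      have h5 : b⁻¹ = b := by rw [inv_eq_iff_mul_eq_one, h2]
      have h6 : (a * b)⁻¹ = a * b := by rw [inv_eq_iff_mul_eq_one, h3]
      rw [← h6, mul_inv_rev, h4, h5]
    letI : CommGroup (FreeGroup ι ⧸ Sq) :=
      { (inferInstance : Group (FreeGroup ι ⧸ Sq)) with mul_comm := hcomm }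
    let f : (ι → ℤˣ) →* FreeGroup ι ⧸ Sq :=
      ∏ i : ι, (uh (QuotientGroup.mk (of i) : FreeGroup ι ⧸ Sq) (hsq _)).comp
        (Pi.evalMonoidHom (fun _ : ι => ℤˣ) i)
    have hf : f.comp (Q ι) = QuotientGroup.mk' Sq := by
      ext j
      rw [MonoidHom.comp_apply, Q_of]
      show (∏ i : ι, (uh (QuotientGroup.mk (of i) : FreeGroup ι ⧸ Sq) (hsq _)).comp
        (Pi.evalMonoidHom (fun _ : ι => ℤˣ) i)) (Pi.mulSingle j (-1)) = _
      rw [MonoidHom.finsetProd_apply, Finset.prod_eq_single j]
      · rw [MonoidHom.comp_apply, Pi.evalMonoidHom_apply, Pi.mulSingle_eq_same, uh_neg]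
        rfl
      · intro i _ hi
        rw [MonoidHom.comp_apply, Pi.evalMonoidHom_apply, Pi.mulSingle_eq_of_ne hi, map_one]
      · intro h; exact absurd (Finset.mem_univ _) h
    have h7 : QuotientGroup.mk' Sq z = 1 := by
      rw [← hf, MonoidHom.comp_apply, mem_Gm_iff_Q.1 hz, map_one]
    exact (QuotientGroup.eq_one_iff z).1 h7
  · rw [Subgroup.closure_le]
    rintro _ ⟨y, rfl⟩
    show y * y ∈ Gm ι
    rw [mem_Gm]
    intro c
    rw [map_mul, Int.units_mul_self]

/-- The criterion to act trivially on the abelianization of `Gm`. -/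
theorem triv_of {φ : MulAut (FreeGroup ι)} (h : ∀ c, Eqv c φ 1) (x : FreeGroup ι)
    (hx : x ∈ Gm ι) : φ x * x⁻¹ ∈ ⁅Gm ι, Gm ι⁆ := by
  apply mem_comm (mul_mem (Gm_map hx φ) (inv_mem hx))
  intro c d
  have h1 := h c d x hx
  rw [MulAut.one_apply] at h1
  rw [D_mul, D_inv, h1, mem_Gm.1 hx c, mem_Gm.1 (Gm_map hx φ) c]
  simp

end

end Pool.Agent.V5helper38.CS
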