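import Pool.Agent.V5helper38.CS.Loc
import Pool.Agent.R569.CS.Main

/-!
# The congruence property for the action on the abelianization of `F²`
-/

set_option autoImplicit false
set_option linter.unusedSectionVars false

namespace Pool.Agent.V5helper38.CS

open FreeGroup (of)
open Matrix
open Pool.Agent.Helper460_CSP (bls)

section dihedral

variable {ι : Type}

/-- The homomorphism to a dihedral group given by a derivation. -/
def dh (M : ℕ) (c : ι → ℤˣ) (d : ι → ℤ) : FreeGroup ι →* DihedralGroup M where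
  toFun := fun x => if X c x = 1 then DihedralGroup.r ((D c d x : ℤ) : ZMod M)
    else DihedralGroup.sr ((-(D c d x) : ℤ) : ZMod M)
  map_one' := by
    rw [map_one, if_pos rfl, D_one, Int.cast_zero]
    exact DihedralGroup.r_zero
  map_mul' := fun x y => by
    have hm : (-1 : ℤˣ) ≠ 1 := by decide
    rcases Int.units_eq_one_or (X c x) with h1 | h1 <;>
      rcases Int.units_eq_one_or (X c y) with h2 | h2
    · rw [map_mul, h1, h2, one_mul, if_pos rfl, if_pos rfl, if_pos rfl, DihedralGroup.r_mul_r,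
        D_mul, h1, Units.val_one, one_mul, Int.cast_add]
    · rw [map_mul, h1, h2, one_mul, if_neg hm, if_pos rfl, if_neg hm, DihedralGroup.r_mul_sr,
        D_mul, h1, Units.val_one, one_mul]
      congr 1
      push_cast
      ring
    · rw [map_mul, h1, h2, mul_one, if_neg hm, if_neg hm, if_pos rfl, DihedralGroup.sr_mul_r,
        D_mul, h1, Units.val_neg, Units.val_one]
      congr 1
      push_cast
      ring
    · rw [map_mul, h1, h2, neg_mul_neg, one_mul, if_pos rfl, if_neg hm, if_neg hm,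
        DihedralGroup.sr_mul_sr, D_mul, h1, Units.val_neg, Units.val_one]
      congr 1
      push_cast
      ring

/-- The intersection of the kernels of the homomorphisms to the dihedral group of order `2 M`. -/
def KD (ι : Type) (M : ℕ) : Subgroup (FreeGroup ι) :=
  ⨅ f : FreeGroup ι →* DihedralGroup M, f.ker

lemma mem_KD {M : ℕ} {x : FreeGroup ι} :
    x ∈ KD ι M ↔ ∀ f : FreeGroup ι →* DihedralGroup M, f x = 1 := by
  unfold KD
  rw [Subgroup.mem_iInf]
  rfl

instance (M : ℕ) : (KD ι M).Characteristic := by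
  rw [Subgroup.characteristic_iff_le_comap]
  intro φ x hx
  rw [Subgroup.mem_comap]
  rw [mem_KD] at hx ⊢
  exact fun f => hx (f.comp φ.toMonoidHom)

instance [Finite ι] (M : ℕ) [NeZero M] : (KD ι M).FiniteIndex := by
  have : Finite (FreeGroup ι →* DihedralGroup M) :=
    Finite.of_equiv _ (FreeGroup.lift (α := ι) (β := DihedralGroup M))
  unfold KD
  exact Subgroup.finiteIndex_iInf fun f => inferInstance

lemma KD_spec {M : ℕ} {x : FreeGroup ι} (h : x ∈ KD ι M) (c : ι → ℤˣ) :
    X c x = 1 ∧ ∀ d, (M : ℤ) ∣ D c d x := by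
  have h1 : ∀ d, X c x = 1 ∧ ((D c d x : ℤ) : ZMod M) = 0 := by
    intro d
    have h2 := mem_KD.1 h (dh M c d)
    have h3 : (if X c x = 1 then DihedralGroup.r ((D c d x : ℤ) : ZMod M)
      else DihedralGroup.sr ((-(D c d x) : ℤ) : ZMod M)) = 1 := h2
    by_cases hx : X c x = 1
    · rw [if_pos hx, DihedralGroup.one_def] at h3
      exact ⟨hx, by injection h3⟩
    · rw [if_neg hx, DihedralGroup.one_def] at h3
      cases h3
  refine ⟨(h1 0).1, fun d => ?_⟩
  rw [← ZMod.intCast_zmod_eq_zero_iff_dvd]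
  exact (h1 d).2

/-- `φ` acts trivially on all derivations modulo `M`. -/
def Cg (M : ℤ) (φ : MulAut (FreeGroup ι)) : Prop :=
  ∀ (c : ι → ℤˣ) (d : ι → ℤ) (x : FreeGroup ι), M ∣ D c d (φ x) - D c d x

lemma Cg_of_KD {M : ℕ} {φ : MulAut (FreeGroup ι)} (h : ∀ x, φ x * x⁻¹ ∈ KD ι M) :
    φ ∈ S ι ∧ Cg M φ := by
  constructor
  · rw [mem_S_iff]
    intro x
    rw [mem_Gm]
    exact fun c => (KD_spec (h x) c).1
  · intro c d x
    have h1 := KD_spec (h x) c
    have h2 := D_mul c d (φ x * x⁻¹) x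
    rw [inv_mul_cancel_right, h1.1, Units.val_one, one_mul] at h2
    have h3 := h1.2 d
    rwa [h2, add_sub_cancel_right]

lemma Cg.conj {M : ℤ} {φ : MulAut (FreeGroup ι)} (h : Cg M φ) (θ : MulAut (FreeGroup ι)) :
    Cg M (θ * φ * θ⁻¹) := by
  intro c d x
  have h1 := h (tw c θ) (tv c θ d) (θ⁻¹ x)
  rw [D_tv, D_tv, MulAut.apply_inv_self] at h1
  exact h1

end dihedral

section trans

variable {ι : Type} [DecidableEq ι]

/-- `x_j ↦ x_j x_i` for the `j ≠ i` with `c_j = -1`. -/
def th (c : ι → ℤˣ) (i : ι) (g : FreeGroup ι) : FreeGroup ι →* FreeGroup ι :=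
  FreeGroup.lift (fun j => if j = i then of i else of j * (if c j = 1 then 1 else g))

lemma th_self (c : ι → ℤˣ) (i : ι) (g : FreeGroup ι) : th c i g (of i) = of i := by
  unfold th; rw [FreeGroup.lift_apply_of, if_pos rfl]

lemma th_ne (c : ι → ℤˣ) {i j : ι} (h : j ≠ i) (g : FreeGroup ι) :
    th c i g (of j) = of j * (if c j = 1 then 1 else g) := by
  unfold th; rw [FreeGroup.lift_apply_of, if_neg h]

/-- the automorphism. -/
def tha (c : ι → ℤˣ) (i : ι) : MulAut (FreeGroup ι) where
  toFun := th c i (of i)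
  invFun := th c i (of i)⁻¹
  left_inv := fun x => by
    have : (th c i (of i)⁻¹).comp (th c i (of i)) = MonoidHom.id _ := by
      ext j
      rw [MonoidHom.comp_apply, MonoidHom.id_apply]
      by_cases hj : j = i
      · subst hj
        rw [th_self, th_self]
      · rw [th_ne c hj, map_mul, th_ne c hj]
        split_ifs
        · rw [map_one, mul_one, mul_one]
        · rw [th_self, mul_assoc, inv_mul_cancel, mul_one]
    exact DFunLike.congr_fun this x
  right_inv := fun x => by
    have : (th c i (of i)).comp (th c i (of i)⁻¹) = MonoidHom.id _ := by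
      ext j
      rw [MonoidHom.comp_apply, MonoidHom.id_apply]
      by_cases hj : j = i
      · subst hj
        rw [th_self, th_self]
      · rw [th_ne c hj, map_mul, th_ne c hj]
        split_ifs
        · rw [map_one, mul_one, mul_one]
        · rw [map_inv, th_self, mul_assoc, mul_inv_cancel, mul_one]
    exact DFunLike.congr_fun this x
  map_mul' := fun x y => map_mul _ x y

/-- All nontrivial characters are in one orbit. -/
lemma orbit {c : ι → ℤˣ} {i i0 : ι} (hi : c i = -1) :
    ∃ θ : MulAut (FreeGroup ι), tw c θ = fun j => if j = i0 then -1 else 1 := by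
  refine ⟨tha c i * FreeGroup.freeGroupCongr (Equiv.swap i0 i), ?_⟩
  funext j
  show X c (th c i (of i) (FreeGroup.freeGroupCongr (Equiv.swap i0 i) (of j))) = _
  have h1 : FreeGroup.freeGroupCongr (Equiv.swap i0 i) (of j) = of (Equiv.swap i0 i j) := by
    simp
  rw [h1]
  by_cases hj : j = i0
  · subst hj
    rw [if_pos rfl, Equiv.swap_apply_left, th_self, X_of, hi]
  · rw [if_neg hj]
    have h2 : Equiv.swap i0 i j ≠ i := by
      intro h3
      apply hj
      have h4 : Equiv.swap i0 i j = Equiv.swap i0 i i0 := by rw [h3, Equiv.swap_apply_left]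
      exact (Equiv.swap i0 i).injective h4
    rw [th_ne c h2, map_mul, X_of]
    split_ifs with h5
    · rw [h5, map_one, mul_one]
    · rw [X_of, hi, (Int.units_eq_one_or _).resolve_left h5, neg_mul_neg, one_mul]

end trans

section main

variable (r : ℕ)

/-- The character `x_0 ↦ -1`, `x_j ↦ 1` for `j ≠ 0`. -/
def c0 : Fin (r + 4) → ℤˣ := fun j => if j = 0 then -1 else 1

lemma frame_one : Frame (1 : Fin (r + 4) → ℤˣ) (id : Fin (r + 4) → Fin (r + 4)) where
  inj := Function.injective_id
  one := fun _ => rfl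
  van := fun i hi => absurd ⟨i, rfl⟩ hi

lemma frame_c0 : Frame (c0 r) (Fin.succ : Fin (r + 3) → Fin (r + 4)) where
  inj := Fin.succ_injective _
  one := fun k => if_neg (Fin.succ_ne_zero k)
  van := by
    intro i hi y hy
    have h0 : i = 0 := by
      by_contra h
      obtain ⟨k, hk⟩ := Fin.exists_succ_eq_of_ne_zero h
      exact hi ⟨k, hk⟩
    subst h0
    have h1 := D_inner (c0 r) y
    rw [hy, Units.val_one, sub_self] at h1
    have h2 : (fun i => 1 - ((c0 r i : ℤˣ) : ℤ)) = (2 : ℤ) • (Pi.single 0 1 : Fin (r + 4) → ℤ) := by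
      funext j
      rw [Pi.smul_apply, Pi.single_apply]
      unfold c0
      split_ifs <;> norm_num
    rw [h2, D_smul] at h1
    omega

variable {r}

/-- **The congruence property at each character.** -/
theorem char_csp (V : Subgroup (MulAut (FreeGroup (Fin (r + 4))))) [V.Normal] {m : ℕ}
    (hm : ∀ φ : MulAut (FreeGroup (Fin (r + 4))), φ ^ m ∈ V) (hm0 : m ≠ 0)
    (c : Fin (r + 4) → ℤˣ) {φ : MulAut (FreeGroup (Fin (r + 4)))} (hφ : φ ∈ S (Fin (r + 4)))
    (hc : Cg (4 * (m * ((2 : ℤ) ^ (Fintype.card (Fin (r + 4)))) ^ 2)) φ) :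
    ∃ α ∈ V, α ∈ S (Fin (r + 4)) ∧ (∀ c', c' ≠ c → Eqv c' α 1) ∧ Eqv c α φ := by
  by_cases h1 : c = 1
  · subst h1
    refine local_csp V (frame_one r) (by rw [Fintype.card_fin]; omega) hm hm0
      (fun M hM A hA => bls hM (r + 1) A hA) hφ (fun k j => ?_)
    have h2 := hc 1 (Pi.single k 1) (of j)
    rw [D_of, Pi.single_apply] at h2
    rw [Matrix.one_apply]
    have h3 : (if j = k then (1 : ℤ) else 0) = if k = j then 1 else 0 := by
      by_cases h : k = j
      · rw [if_pos h, if_pos h.symm]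
      · rw [if_neg h, if_neg (Ne.symm h)]
    rw [h3] at h2
    exact h2
  · obtain ⟨i, hi⟩ : ∃ i, c i = -1 := by
      by_contra hcon
      push Not at hcon
      apply h1
      funext i
      exact (Int.units_eq_one_or _).resolve_right (hcon i)
    obtain ⟨θ, hθ⟩ := orbit (i0 := (0 : Fin (r + 4))) hi
    have hφ' : θ⁻¹ * φ * θ ∈ S (Fin (r + 4)) := by
      have := S_conj hφ θ⁻¹
      rwa [inv_inv] at this
    have hc' : Cg (4 * (m * ((2 : ℤ) ^ (Fintype.card (Fin (r + 4)))) ^ 2)) (θ⁻¹ * φ * θ) := by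
      have := hc.conj θ⁻¹
      rwa [inv_inv] at this
    obtain ⟨α, k1, k2, k3, k4⟩ := local_csp V (frame_c0 r) (by rw [Fintype.card_fin]; omega) hm hm0
      (fun M hM A hA => bls hM r A hA) hφ' (fun k j => by
        have h2 := hc' (c0 r) (Pi.single k.succ 1) (of j.succ)
        rw [D_of, Pi.single_apply] at h2
        rw [Matrix.one_apply]
        have h3 : (if j.succ = k.succ then (1 : ℤ) else 0) = if k = j then 1 else 0 := by
          by_cases h : k = j
          · rw [if_pos h, if_pos (by rw [h])]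
          · rw [if_neg h, if_neg (fun h' => h (Fin.succ_injective _ h').symm)]
        rw [h3] at h2
        exact h2)
    have hinst : V.Normal := inferInstance
    refine ⟨θ * α * θ⁻¹, hinst.conj_mem _ k1 θ, S_conj k2 θ, fun c' hc' => ?_, ?_⟩
    · have h5 : tw c' θ ≠ c0 r := by
        intro h6
        apply hc'
        have h7 : tw (tw c' θ) θ⁻¹ = tw (tw c θ) θ⁻¹ := by rw [h6, hθ]; rfl
        rwa [← tw_mul, ← tw_mul, mul_inv_cancel, tw_one, tw_one] at h7
      have h8 := (k3 _ h5).conj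
      rwa [mul_one, mul_inv_cancel] at h8
    · have h5 : Eqv (tw c θ) α (θ⁻¹ * φ * θ) := by rw [hθ]; exact k4
      have h6 := h5.conj
      have h7 : θ * (θ⁻¹ * φ * θ) * θ⁻¹ = φ := by group
      rwa [h7] at h6

/-- All characters together. -/
theorem all_csp (V : Subgroup (MulAut (FreeGroup (Fin (r + 4))))) [V.Normal] {m : ℕ}
    (hm : ∀ φ : MulAut (FreeGroup (Fin (r + 4))), φ ^ m ∈ V) (hm0 : m ≠ 0)
    {φ : MulAut (FreeGroup (Fin (r + 4)))} (hφ : φ ∈ S (Fin (r + 4)))
    (hc : Cg (4 * (m * ((2 : ℤ) ^ (Fintype.card (Fin (r + 4)))) ^ 2)) φ)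
    (s : Finset (Fin (r + 4) → ℤˣ)) :
    ∃ β ∈ V, β ∈ S (Fin (r + 4)) ∧ (∀ c ∈ s, Eqv c β φ) ∧ ∀ c, c ∉ s → Eqv c β 1 := by
  induction s using Finset.induction_on with
  | empty =>
    exact ⟨1, one_mem _, one_mem _, fun c hc => absurd hc (Finset.notMem_empty _),
      fun c _ => Eqv.refl _ _⟩
  | insert a s ha ih =>
    obtain ⟨β, h1, h2, h3, h4⟩ := ih
    obtain ⟨α, k1, k2, k3, k4⟩ := char_csp V hm hm0 a hφ hc
    refine ⟨α * β, mul_mem k1 h1, mul_mem k2 h2, fun c hc => ?_, fun c hc => ?_⟩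
    · rcases Finset.mem_insert.1 hc with rfl | hc
      · have := k4.mul hφ (h4 c ha)
        rwa [mul_one] at this
      · have hca : c ≠ a := fun h => ha (h ▸ hc)
        have := (k3 c hca).mul (one_mem _) (h3 c hc)
        rwa [one_mul] at this
    · rw [Finset.mem_insert, not_or] at hc
      have := (k3 c hc.1).mul (one_mem _) (h4 c hc.2)
      rwa [one_mul] at this

/-- **Theorem.** Let `V` be a subgroup of finite index of `Aut (F)` containing the automorphisms
acting trivially on `F / F²` and on the abelianization of `F²`. Then `V` contains the automorphisms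
acting trivially modulo the intersection of the kernels of the homomorphisms to a dihedral group. -/
theorem lin_csp (V : Subgroup (MulAut (FreeGroup (Fin (r + 4))))) (hV : V.FiniteIndex)
    (h : ∀ φ : MulAut (FreeGroup (Fin (r + 4))), (∀ x, φ x * x⁻¹ ∈ Gm (Fin (r + 4))) →
      (∀ x ∈ Gm (Fin (r + 4)), φ x * x⁻¹ ∈ ⁅Gm (Fin (r + 4)), Gm (Fin (r + 4))⁆) → φ ∈ V) :
    ∃ M : ℕ, M ≠ 0 ∧ ∀ φ : MulAut (FreeGroup (Fin (r + 4))),
      (∀ x, φ x * x⁻¹ ∈ KD (Fin (r + 4)) M) → φ ∈ V := by
  have hV0 : V.normalCore.FiniteIndex := inferInstance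
  have hi0 : V.normalCore.index ≠ 0 := hV0.index_ne_zero
  -- the normal core contains the kernel of the action
  have hcore : ∀ φ : MulAut (FreeGroup (Fin (r + 4))), φ ∈ S (Fin (r + 4)) →
      (∀ c, Eqv c φ 1) → φ ∈ V.normalCore := by
    intro φ hφ h1 θ
    apply h
    · exact mem_S_iff.1 (S_conj hφ θ)
    · apply triv_of
      intro c
      have := (h1 (tw c θ)).conj
      rwa [mul_one, mul_inv_cancel] at this
  refine ⟨4 * (V.normalCore.index * (2 ^ (Fintype.card (Fin (r + 4)))) ^ 2), by positivity, ?_⟩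
  intro φ hφ
  obtain ⟨h1, h2⟩ := Cg_of_KD hφ
  have h2' : Cg (4 * (V.normalCore.index * ((2 : ℤ) ^ (Fintype.card (Fin (r + 4)))) ^ 2)) φ := by
    have e : ((4 * (V.normalCore.index * (2 ^ (Fintype.card (Fin (r + 4)))) ^ 2) : ℕ) : ℤ) =
        4 * (V.normalCore.index * ((2 : ℤ) ^ (Fintype.card (Fin (r + 4)))) ^ 2) := by push_cast; rfl
    rw [e] at h2
    exact h2
  obtain ⟨β, k1, k2, k3, _⟩ := all_csp V.normalCore (m := V.normalCore.index)
    (fun φ => Subgroup.pow_index_mem _ φ) hi0 h1 h2' Finset.univ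
  have h5 : φ * β⁻¹ ∈ V.normalCore := by
    apply hcore _ (mul_mem h1 (inv_mem k2))
    intro c
    have h6 := (k3 c (Finset.mem_univ c)).symm.mul k2 (Eqv.refl c β⁻¹)
    rwa [mul_inv_cancel] at h6
  have h7 := mul_mem h5 k1
  rw [inv_mul_cancel_right] at h7
  exact Subgroup.normalCore_le V h7

end main

end Pool.Agent.V5helper38.CS
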