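import Pool.Agent.V5helper38.CS.Mag

/-!
# Pure elements: they act on the derivations of one character only
-/

set_option autoImplicit false
set_option linter.unusedSectionVars false

namespace Pool.Agent.V5helper38.CS

open FreeGroup (of)

variable {ι : Type} [DecidableEq ι]

/-- The endomorphism `x_j ↦ x_j w`. -/
def eh (j : ι) (w : FreeGroup ι) : FreeGroup ι →* FreeGroup ι :=
  FreeGroup.lift (fun i => if i = j then of j * w else of i)

lemma eh_self (j : ι) (w : FreeGroup ι) : eh j w (of j) = of j * w := by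
  unfold eh; rw [FreeGroup.lift_apply_of, if_pos rfl]

lemma eh_ne {i j : ι} (h : i ≠ j) (w : FreeGroup ι) : eh j w (of i) = of i := by
  unfold eh; rw [FreeGroup.lift_apply_of, if_neg h]

/-- `w` does not involve `x_j`. -/
def Fx (j : ι) (w : FreeGroup ι) : Prop := ∀ u, eh j u w = w

lemma Fx.inv {j : ι} {w : FreeGroup ι} (h : Fx j w) : Fx j w⁻¹ := fun u => by
  rw [map_inv, h u]

lemma Fx.mul {j : ι} {w v : FreeGroup ι} (h : Fx j w) (h' : Fx j v) : Fx j (w * v) := fun u => by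
  rw [map_mul, h u, h' u]

lemma Fx_of {i j : ι} (h : i ≠ j) : Fx j (of i) := fun u => eh_ne h u

/-- The automorphism `x_j ↦ x_j w`. -/
def Ea (j : ι) (w : FreeGroup ι) (h : Fx j w) : MulAut (FreeGroup ι) where
  toFun := eh j w
  invFun := eh j w⁻¹
  left_inv := fun x => by
    have : (eh j w⁻¹).comp (eh j w) = MonoidHom.id _ := by
      ext i
      rw [MonoidHom.comp_apply, MonoidHom.id_apply]
      by_cases hi : i = j
      · subst hi
        rw [eh_self, map_mul, eh_self, h, mul_assoc, inv_mul_cancel, mul_one]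
      · rw [eh_ne hi, eh_ne hi]
    exact DFunLike.congr_fun this x
  right_inv := fun x => by
    have : (eh j w).comp (eh j w⁻¹) = MonoidHom.id _ := by
      ext i
      rw [MonoidHom.comp_apply, MonoidHom.id_apply]
      by_cases hi : i = j
      · subst hi
        rw [eh_self, map_mul, eh_self, map_inv, h, mul_assoc, mul_inv_cancel, mul_one]
      · rw [eh_ne hi, eh_ne hi]
    exact DFunLike.congr_fun this x
  map_mul' := fun x y => map_mul _ x y

lemma Ea_self (j : ι) (w : FreeGroup ι) (h : Fx j w) : Ea j w h (of j) = of j * w := eh_self j w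

lemma Ea_ne {i j : ι} (hi : i ≠ j) (w : FreeGroup ι) (h : Fx j w) : Ea j w h (of i) = of i :=
  eh_ne hi w

lemma Ea_inv (j : ι) (w : FreeGroup ι) (h : Fx j w) : (Ea j w h)⁻¹ = Ea j w⁻¹ h.inv := by
  rw [inv_eq_iff_mul_eq_one]
  apply MulEquiv.ext
  intro x
  exact (Ea j w h).right_inv x

lemma Ea_S {j : ι} {w : FreeGroup ι} (h : Fx j w) (hw : w ∈ Gm ι) : Ea j w h ∈ S ι := by
  intro c x
  have h1 : (X c).comp (eh j w) = X c := by
    ext i
    rw [MonoidHom.comp_apply]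
    by_cases hi : i = j
    · subst hi
      rw [eh_self, map_mul, mem_Gm.1 hw, mul_one]
    · rw [eh_ne hi]
  exact DFunLike.congr_fun h1 x

/-- the action of `x_j ↦ x_j w` on the derivations. -/
lemma tv_Ea {j : ι} {w : FreeGroup ι} (h : Fx j w) (c : ι → ℤˣ) (d : ι → ℤ) :
    tv c (Ea j w h) d = d + Pi.single j (c j * D c d w) := by
  ext i
  show D c d (Ea j w h (of i)) = d i + (Pi.single j (c j * D c d w) : ι → ℤ) i
  by_cases hi : i = j
  · subst hi
    rw [Ea_self, D_mul, D_of, X_of, Pi.single_eq_same]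
  · rw [Ea_ne hi, D_of, Pi.single_eq_of_ne hi, add_zero]

/-- `∏_i (1 + c_i x_i)` acting on `y`. -/
def nm (c : ι → ℤˣ) : List ι → FreeGroup ι → FreeGroup ι
  | [], y => y
  | i :: l, y => nm c l y * (of i * nm c l y * (of i)⁻¹) ^ (c i : ℤ)

lemma nm_Gm (c : ι → ℤˣ) (l : List ι) {y : FreeGroup ι} (hy : y ∈ Gm ι) : nm c l y ∈ Gm ι := by
  induction l with
  | nil => exact hy
  | cons i l ih =>
    exact mul_mem ih (zpow_mem ((inferInstance : (Gm ι).Normal).conj_mem _ ih _) _)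

lemma nm_Fx {j : ι} (c : ι → ℤˣ) {l : List ι} (hl : ∀ i ∈ l, i ≠ j) {y : FreeGroup ι}
    (hy : Fx j y) : Fx j (nm c l y) := by
  induction l with
  | nil => exact hy
  | cons i l ih =>
    have h1 := ih (fun k hk => hl k (List.mem_cons_of_mem i hk))
    have h2 := hl i List.mem_cons_self
    intro u
    show eh j u (nm c l y * (of i * nm c l y * (of i)⁻¹) ^ (c i : ℤ)) = _
    rw [map_mul, map_zpow, map_mul, map_mul, map_inv, h1 u, eh_ne h2]
    rfl

lemma D_zpow_unit {c : ι → ℤˣ} (d : ι → ℤ) {y : FreeGroup ι} (hy : X c y = 1) (e : ℤˣ) :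
    D c d (y ^ (e : ℤ)) = e * D c d y := by
  rcases Int.units_eq_one_or e with rfl | rfl
  · simp
  · rw [Units.val_neg, Units.val_one, zpow_neg, zpow_one, D_inv, hy]
    simp

lemma D_nm (c c' : ι → ℤˣ) (d : ι → ℤ) (l : List ι) {y : FreeGroup ι} (hy : y ∈ Gm ι) :
    D c' d (nm c l y) = (l.map (fun i => 1 + (c i : ℤ) * c' i)).prod * D c' d y := by
  induction l with
  | nil => simp [nm]
  | cons i l ih =>
    have h1 := mem_Gm.1 (nm_Gm c l hy) c'
    show D c' d (nm c l y * (of i * nm c l y * (of i)⁻¹) ^ (c i : ℤ)) = _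
    have h2 : X c' (of i * nm c l y * (of i)⁻¹) = 1 := by
      rw [map_mul, map_mul, h1, map_inv]; simp
    rw [D_mul, h1, D_zpow_unit d h2, D_conj d _ h1, ih, X_of, List.map_cons, List.prod_cons]
    push_cast
    ring

lemma sq_Gm (k : ι) : of k * of k ∈ Gm ι := by
  rw [mem_Gm]
  intro c
  rw [map_mul, Int.units_mul_self]

lemma D_sq (c : ι → ℤˣ) (d : ι → ℤ) (k : ι) : D c d (of k * of k) = (1 + c k) * d k := by
  rw [D_mul, D_of, X_of]; ring

variable [Fintype ι]

/-- The word `w_jk`. -/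
noncomputable def wd (c : ι → ℤˣ) (j k : ι) : FreeGroup ι :=
  nm c (Finset.univ.erase j).toList (of k * of k)

lemma wd_Gm (c : ι → ℤˣ) (j k : ι) : wd c j k ∈ Gm ι := nm_Gm _ _ (sq_Gm k)

lemma wd_Fx (c : ι → ℤˣ) {j k : ι} (h : k ≠ j) : Fx j (wd c j k) :=
  nm_Fx c (fun i hi => by
    rw [Finset.mem_toList, Finset.mem_erase] at hi
    exact hi.1) ((Fx_of h).mul (Fx_of h))

lemma D_wd_ne {c c' : ι → ℤˣ} {i j k : ι} (hi : i ≠ j) (h : c' i ≠ c i) (d : ι → ℤ) :
    D c' d (wd c j k) = 0 := by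
  unfold wd
  rw [D_nm c c' d _ (sq_Gm k)]
  have : (((Finset.univ.erase j).toList.map (fun i => 1 + (c i : ℤ) * c' i)).prod : ℤ) = 0 := by
    rw [List.prod_eq_zero_iff, List.mem_map]
    refine ⟨i, ?_, ?_⟩
    · rw [Finset.mem_toList, Finset.mem_erase]
      exact ⟨hi, Finset.mem_univ _⟩
    · rcases Int.units_eq_one_or (c i) with h1 | h1 <;>
        rcases Int.units_eq_one_or (c' i) with h2 | h2 <;> simp_all
  rw [this, zero_mul]

lemma D_wd_self (c : ι → ℤˣ) (j k : ι) (hk : c k = 1) (d : ι → ℤ) :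
    D c d (wd c j k) = 2 ^ (Fintype.card ι) * d k := by
  unfold wd
  rw [D_nm c c d _ (sq_Gm k), D_sq, hk]
  have h1 : ((Finset.univ.erase j).toList.map (fun i => 1 + (c i : ℤ) * c i)) =
      ((Finset.univ.erase j).toList.map (fun _ => (2 : ℤ))) := by
    apply List.map_congr_left
    intro i _
    rw [uu]; norm_num
  rw [h1, List.map_const', List.prod_replicate, Finset.length_toList,
    Finset.card_erase_of_mem (Finset.mem_univ j), Finset.card_univ]
  have h2 : Fintype.card ι = Fintype.card ι - 1 + 1 := by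
    have : 0 < Fintype.card ι := Fintype.card_pos_iff.2 ⟨j⟩
    omega
  rw [h2, pow_succ, Nat.add_sub_cancel]
  push_cast
  ring

/-- the automorphisms acting trivially on all derivations of the character `c`. -/
lemma Eqv_one_of_tv {c : ι → ℤˣ} {α : MulAut (FreeGroup ι)} (hα : α ∈ S ι)
    (h : ∀ d, tv c α d = d) : Eqv c α 1 := by
  intro d y _
  rw [← D_tv c α d, S_tw hα, h]; rfl

/-- The element `[x_j ↦ x_j w_jl, x_l ↦ x_l w_lk]`. -/
noncomputable def pe (c : ι → ℤˣ) {j l k : ι} (h1 : l ≠ j) (h2 : k ≠ l) : MulAut (FreeGroup ι) :=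
  Ea j (wd c j l) (wd_Fx c h1) * Ea l (wd c l k) (wd_Fx c h2) *
    (Ea j (wd c j l) (wd_Fx c h1))⁻¹ * (Ea l (wd c l k) (wd_Fx c h2))⁻¹

lemma pe_S (c : ι → ℤˣ) {j l k : ι} (h1 : l ≠ j) (h2 : k ≠ l) : pe c h1 h2 ∈ S ι := by
  unfold pe
  have a := Ea_S (wd_Fx c h1) (wd_Gm c j l)
  have b := Ea_S (wd_Fx c h2) (wd_Gm c l k)
  exact mul_mem (mul_mem (mul_mem a b) (inv_mem a)) (inv_mem b)

lemma pe_pure (c c' : ι → ℤˣ) (hc : c' ≠ c) {j l k : ι} (h1 : l ≠ j) (h2 : k ≠ l) :
    Eqv c' (pe c h1 h2) 1 := by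
  have a := Ea_S (wd_Fx c h1) (wd_Gm c j l)
  have b := Ea_S (wd_Fx c h2) (wd_Gm c l k)
  obtain ⟨i, hi⟩ : ∃ i, c' i ≠ c i := by
    by_contra hcon
    push Not at hcon
    exact hc (funext hcon)
  unfold pe
  by_cases hij : i = j
  · -- the second element acts trivially
    have h3 : Eqv c' (Ea l (wd c l k) (wd_Fx c h2)) 1 := by
      apply Eqv_one_of_tv b
      intro d
      have hil : i ≠ l := by rw [hij]; exact h1.symm
      rw [tv_Ea, D_wd_ne hil hi, mul_zero, Pi.single_zero, add_zero]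
    have h4 := ((Eqv.refl c' (Ea j (wd c j l) (wd_Fx c h1))).mul a h3).mul
      (mul_mem a (one_mem _)) (Eqv.refl c' (Ea j (wd c j l) (wd_Fx c h1))⁻¹)
    have h5 := h4.mul (mul_mem (mul_mem a (one_mem _)) (inv_mem a)) (h3.inv b (one_mem _))
    rw [mul_one, mul_inv_cancel, one_mul, inv_one] at h5
    exact h5
  · -- the first element acts trivially
    have h3 : Eqv c' (Ea j (wd c j l) (wd_Fx c h1)) 1 := by
      apply Eqv_one_of_tv a
      intro d
      rw [tv_Ea, D_wd_ne hij hi, mul_zero, Pi.single_zero, add_zero]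
    have h4 := (h3.mul (one_mem _) (Eqv.refl c' (Ea l (wd c l k) (wd_Fx c h2)))).mul
      (mul_mem (one_mem _) b) (h3.inv a (one_mem _))
    have h5 := h4.mul (mul_mem (mul_mem (one_mem _) b) (inv_mem (one_mem _)))
      (Eqv.refl c' (Ea l (wd c l k) (wd_Fx c h2))⁻¹)
    rw [one_mul, inv_one, mul_one, mul_inv_cancel] at h5
    exact h5

lemma tv_mul_S {c : ι → ℤˣ} {α β : MulAut (FreeGroup ι)} (hα : α ∈ S ι) (d : ι → ℤ) :
    tv c (α * β) d = tv c β (tv c α d) := by
  ext i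
  show D c d ((α * β) (of i)) = D c (tv c α d) (β (of i))
  rw [MulAut.mul_apply, ← D_tv c α d, S_tw hα]

/-- the action at the character itself. -/
lemma tv_pe (c : ι → ℤˣ) {j l k : ι} (h1 : l ≠ j) (h2 : k ≠ l) (h3 : k ≠ j) (hj : c j = 1)
    (hl : c l = 1) (hk : c k = 1) (d : ι → ℤ) :
    tv c (pe c h1 h2) d = d - Pi.single j (((2 : ℤ) ^ (Fintype.card ι)) ^ 2 * d k) := by
  have a := Ea_S (wd_Fx c h1) (wd_Gm c j l)
  have b := Ea_S (wd_Fx c h2) (wd_Gm c l k)
  obtain ⟨N, hN⟩ : ∃ N : ℤ, N = 2 ^ (Fintype.card ι) := ⟨_, rfl⟩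
  have e1 : ∀ d, tv c (Ea j (wd c j l) (wd_Fx c h1)) d = d + Pi.single j (N * d l) := by
    intro d
    rw [tv_Ea, D_wd_self c j l hl, hj, Units.val_one, one_mul, ← hN]
  have e2 : ∀ d, tv c (Ea l (wd c l k) (wd_Fx c h2)) d = d + Pi.single l (N * d k) := by
    intro d
    rw [tv_Ea, D_wd_self c l k hk, hl, Units.val_one, one_mul, ← hN]
  have e3 : ∀ d, tv c (Ea j (wd c j l) (wd_Fx c h1))⁻¹ d = d - Pi.single j (N * d l) := by
    intro d
    rw [Ea_inv, tv_Ea, D_inv, mem_Gm.1 (wd_Gm c j l), D_wd_self c j l hl, hj, Units.val_one,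
      one_mul, ← hN, one_mul, Pi.single_neg, sub_eq_add_neg]
  have e4 : ∀ d, tv c (Ea l (wd c l k) (wd_Fx c h2))⁻¹ d = d - Pi.single l (N * d k) := by
    intro d
    rw [Ea_inv, tv_Ea, D_inv, mem_Gm.1 (wd_Gm c l k), D_wd_self c l k hk, hl, Units.val_one,
      one_mul, ← hN, one_mul, Pi.single_neg, sub_eq_add_neg]
  unfold pe
  rw [tv_mul_S (mul_mem (mul_mem a b) (inv_mem a)), tv_mul_S (mul_mem a b), tv_mul_S a, e1, e2,
    e3, e4, ← hN]
  ext i
  simp only [Pi.add_apply, Pi.sub_apply, Pi.single_apply, if_pos, if_neg h1, if_neg h2, if_neg h3,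
    if_neg (Ne.symm h1), if_neg (Ne.symm h2), if_neg (Ne.symm h3)]
  by_cases hij : i = j
  · subst hij
    simp only [if_true, if_neg h1.symm]
    ring
  · by_cases hil : i = l
    · subst hil
      simp only [if_true, if_neg hij]
      ring
    · simp only [if_neg hij, if_neg hil]
      ring

end Pool.Agent.V5helper38.CS
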